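import Mathlib

set_option autoImplicit false

/-!
# Approximate covering of a ring without common orientation (SSYNC)

One algorithm, which only uses the two nearest visible sensors and the visibility range, makes the
sensors converge to the uniform covering of the ring, for every fair semi-synchronous schedule,
without common orientation, without common unit of length and with moves that may be interrupted.
-/

namespace Pool.Agent.Results.MP_5c423c_lc.RingCovering

open Finset Filter

/-- A deterministic oblivious algorithm for one sensor. Its input is the visibility range and the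
two sets of distances at which other sensors are seen in the sensor's own positive and in its own
negative direction (all in the sensor's own unit of length). Its output is the displacement, in the
sensor's own positive direction and its own unit, that the sensor is to make. -/
def Algorithm : Type := ℝ → Set ℝ → Set ℝ → ℝ

/-- A configuration of `n` sensors on the ring of length `L`: real coordinates, taken modulo `L`,
clockwise being the increasing direction. The set of distances (in the unit `1 / u`) at which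
sensor `i` sees other sensors in the direction `s = 1` (clockwise) or `s = -1`
(counterclockwise), with visibility range `V`. -/
def view {n : ℕ} (L V : ℝ) (p : ZMod n → ℝ) (s u : ℝ) (i : ZMod n) : Set ℝ :=
  {x | 0 < x ∧ x ≤ u * V ∧ ∃ j, j ≠ i ∧ ∃ m : ℤ, p j = p i + s * (x / u) + m * L}

/-- The clockwise displacement computed by sensor `i` with own orientation `o` (`1` or `-1`) and
own unit of length `1 / u`. -/
noncomputable def computed {n : ℕ} (A : Algorithm) (L V : ℝ) (p : ZMod n → ℝ) (o u : ℝ)
    (i : ZMod n) : ℝ :=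
  o * (A (u * V) (view L V p o u i) (view L V p (-o) u i) / u)

/-- A move with computed displacement `D` from `x` to `x'`: it may stop early, but then covers at
least the distance `δ`. -/
def Moves (δ D x x' : ℝ) : Prop :=
  ∃ l : ℝ, 0 ≤ l ∧ l ≤ 1 ∧ x' = x + l * D ∧ (l = 1 ∨ δ ≤ |l * D|)

/-- The clockwise distance from the point `x` to the point `y` of the ring of length `L`, a number
in `[0, L)`. -/
noncomputable def cw (L x y : ℝ) : ℝ := L * Int.fract ((y - x) / L)

/-- An SSYNC execution: at tick `t` the sensors in the nonempty set `act t` perform a full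
cycle, all others stay; every sensor is activated infinitely often. -/
structure IsExecution {n : ℕ} (A : Algorithm) (L V δ : ℝ) (o u : ZMod n → ℝ)
    (act : ℕ → Set (ZMod n)) (p : ℕ → ZMod n → ℝ) : Prop where
  nonempty : ∀ t, (act t).Nonempty
  fair : ∀ i T, ∃ t, T ≤ t ∧ i ∈ act t
  active : ∀ t i, i ∈ act t → Moves δ (computed A L V (p t) (o i) (u i) i) (p t i) (p (t + 1) i)
  idle : ∀ t i, i ∉ act t → p (t + 1) i = p t i

/-- The sensors are at distinct points and sensor `i + 1` follows sensor `i` clockwise (going once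
around the ring). -/
def InClockwiseOrder {n : ℕ} [NeZero n] (L : ℝ) (p : ZMod n → ℝ) : Prop :=
  (∀ i, 0 < cw L (p i) (p (i + 1))) ∧ ∑ i, cw L (p i) (p (i + 1)) = L

/-- the algorithm: compare the distances to the nearest sensors on the two sides, both capped at
the visibility range, and move a quarter of the difference towards the larger side -/
noncomputable def balance : Algorithm := fun R S T => (sInf (insert R S) - sInf (insert R T)) / 4

/-! ### Dynamics of the gaps -/

section Gaps

/-- potential -/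
noncomputable def phi (V g : ℝ) : ℝ := 2 * g * min g V - min g V ^ 2

theorem phi_nonneg {V g : ℝ} (hV : 0 ≤ V) (hg : 0 ≤ g) : 0 ≤ phi V g := by
  unfold phi
  have h1 : min g V ≤ g := min_le_left _ _
  have h2 : 0 ≤ min g V := le_min hg hV
  nlinarith

theorem phi_add (V g h : ℝ) : phi V (g + h) ≤ phi V g + 2 * min g V * h + h ^ 2 := by
  unfold phi
  rcases le_total g V with h1 | h1
  · rw [min_eq_left h1]
    nlinarith [sq_nonneg (min (g + h) V - g - h)]
  · rw [min_eq_right h1]
    rcases le_total (g + h) V with h2 | h2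
    · rw [min_eq_left h2]
      nlinarith
    · rw [min_eq_right h2]
      nlinarith [sq_nonneg h]

theorem exists_separation {n : ℕ} [NeZero n] (c : ZMod n → ℝ) (η : ℝ) (hη : 0 < η)
    (i₀ j₀ : ZMod n) (h : η ≤ c i₀ - c j₀) :
    ∃ α β : ℝ, η / n ≤ β - α ∧ (∀ i, c i ≤ α ∨ β ≤ c i) ∧ c j₀ ≤ α ∧ β ≤ c i₀ := by
  classical
  have hn : (0 : ℝ) < n := by exact_mod_cast Nat.pos_of_ne_zero (NeZero.ne n)
  by_contra hcon
  push Not at hcon
  have key : ∀ m : Fin n, ∃ i, c j₀ + m * (η / n) < c i ∧ c i < c j₀ + (m + 1) * (η / n) := by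
    intro m
    by_contra hm
    push Not at hm
    have hpos : 0 < η / n := div_pos hη hn
    have h1 := hcon (c j₀ + m * (η / n)) (c j₀ + (m + 1) * (η / n)) (by linarith) (by
      intro i
      rcases le_or_gt (c i) (c j₀ + m * (η / n)) with h2 | h2
      · exact Or.inl h2
      · exact Or.inr (hm i h2))
      (by
        have : (0 : ℝ) ≤ m := Nat.cast_nonneg _
        nlinarith)
    have h2 : ((m : ℕ) : ℝ) + 1 ≤ n := by
      have := m.isLt
      exact_mod_cast this
    have h3 : ((m : ℕ) + 1 : ℝ) * (η / n) ≤ η := by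
      calc ((m : ℕ) + 1 : ℝ) * (η / n) ≤ n * (η / n) :=
            mul_le_mul_of_nonneg_right h2 hpos.le
        _ = η := by field_simp
    linarith
  choose f hf1 hf2 using key
  have hinj : Function.Injective f := by
    intro m m' hmm
    have h1 := hf1 m
    have h2 := hf2 m
    have h3 := hf1 m'
    have h4 := hf2 m'
    rw [hmm] at h1 h2
    have hpos : 0 < η / n := div_pos hη hn
    have h5 : ((m : ℕ) : ℝ) * (η / n) < ((m' : ℕ) + 1) * (η / n) := by linarith
    have h6 : ((m' : ℕ) : ℝ) * (η / n) < ((m : ℕ) + 1) * (η / n) := by linarith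
    have h7 : ((m : ℕ) : ℝ) < (m' : ℕ) + 1 := lt_of_mul_lt_mul_right h5 hpos.le
    have h8 : ((m' : ℕ) : ℝ) < (m : ℕ) + 1 := lt_of_mul_lt_mul_right h6 hpos.le
    have h9 : (m : ℕ) < m' + 1 := by exact_mod_cast h7
    have h10 : (m' : ℕ) < m + 1 := by exact_mod_cast h8
    ext
    omega
  have hsurj : Function.Surjective f := by
    have hcard : Fintype.card (Fin n) = Fintype.card (ZMod n) := by
      rw [Fintype.card_fin, ZMod.card]
    exact ((Fintype.bijective_iff_injective_and_card f).mpr ⟨hinj, hcard⟩).2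
  obtain ⟨m, hm⟩ := hsurj j₀
  have h1 := hf1 m
  rw [hm] at h1
  have : (0 : ℝ) ≤ ((m : ℕ) : ℝ) * (η / n) := by positivity
  linarith

theorem exists_boundary {n : ℕ} [NeZero n] (H : ZMod n → Prop) (i₀ j₀ : ZMod n) (hi : H i₀)
    (hj : ¬ H j₀) : ∃ i, H (i - 1) ∧ ¬ H i := by
  by_contra hcon
  push Not at hcon
  have h1 : ∀ m : ℕ, H (i₀ + m) := by
    intro m
    induction m with
    | zero => simpa using hi
    | succ m ih =>
      apply hcon
      have : i₀ + ((m + 1 : ℕ) : ZMod n) - 1 = i₀ + m := by push_cast; ring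
      rw [this]
      exact ih
  apply hj
  have h2 := h1 (j₀ - i₀).val
  rwa [ZMod.natCast_zmod_val, add_sub_cancel] at h2

variable {n : ℕ} [NeZero n]

theorem sum_shift (f : ZMod n → ℝ) : ∑ i, f (i + 1) = ∑ i, f i :=
  Equiv.sum_comp (Equiv.addRight (1 : ZMod n)) f

theorem sum_shift' (f : ZMod n → ℝ) : ∑ i, f (i - 1) = ∑ i, f i :=
  Equiv.sum_comp (Equiv.subRight (1 : ZMod n)) f

/-- one step decreases the potential -/
theorem potential_step (V : ℝ) (g g' μ : ZMod n → ℝ)
    (hstep : ∀ i, g' i = g i - μ i + μ (i + 1))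
    (hμ : ∀ i, μ i ^ 2 ≤ μ i * ((min (g i) V - min (g (i - 1)) V) / 4)) :
    ∑ i, phi V (g' i) + 4 * ∑ i, μ i * ((min (g i) V - min (g (i - 1)) V) / 4) ≤
      ∑ i, phi V (g i) := by
  have h1 : ∑ i, phi V (g' i) ≤ ∑ i, (phi V (g i) + 2 * min (g i) V * (μ (i + 1) - μ i) +
      (μ (i + 1) - μ i) ^ 2) := by
    apply sum_le_sum
    intro i _
    have h2 := phi_add V (g i) (μ (i + 1) - μ i)
    rw [hstep i, show g i - μ i + μ (i + 1) = g i + (μ (i + 1) - μ i) by ring]
    exact h2
  rw [sum_add_distrib, sum_add_distrib] at h1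
  have h3 : ∑ i, 2 * min (g i) V * (μ (i + 1) - μ i) =
      -8 * ∑ i, μ i * ((min (g i) V - min (g (i - 1)) V) / 4) := by
    have h4 : ∑ i, 2 * min (g i) V * (μ (i + 1) - μ i) =
        ∑ i, 2 * min (g i) V * μ (i + 1) - ∑ i, 2 * min (g i) V * μ i := by
      rw [← sum_sub_distrib]
      apply sum_congr rfl
      intro i _
      ring
    have h5 : ∑ i, 2 * min (g i) V * μ (i + 1) = ∑ i, 2 * min (g (i - 1)) V * μ i := by
      rw [← sum_shift' (fun i => 2 * min (g i) V * μ (i + 1))]
      apply sum_congr rfl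
      intro i _
      rw [sub_add_cancel]
    rw [h4, h5, mul_sum, ← sum_sub_distrib]
    apply sum_congr rfl
    intro i _
    ring
  have h6 : ∑ i, (μ (i + 1) - μ i) ^ 2 ≤
      4 * ∑ i, μ i * ((min (g i) V - min (g (i - 1)) V) / 4) := by
    calc ∑ i, (μ (i + 1) - μ i) ^ 2 ≤ ∑ i, (2 * μ (i + 1) ^ 2 + 2 * μ i ^ 2) := by
          apply sum_le_sum
          intro i _
          nlinarith [sq_nonneg (μ (i + 1) + μ i)]
      _ = 4 * ∑ i, μ i ^ 2 := by
          rw [sum_add_distrib, sum_shift (fun i => 2 * μ i ^ 2), ← mul_sum]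
          ring
      _ ≤ _ := mul_le_mul_of_nonneg_left (sum_le_sum (fun i _ => hμ i)) (by norm_num)
  linarith

theorem gaps_converge (L V δ : ℝ) (hL : 0 < L) (hV : 2 * (L / n) ≤ V) (hδ : 0 < δ)
    (g μ : ℕ → ZMod n → ℝ) (act : ℕ → Set (ZMod n)) (hpos : ∀ t i, 0 < g t i)
    (hsum : ∀ t, ∑ i, g t i = L)
    (hstep : ∀ t i, g (t + 1) i = g t i - μ t i + μ t (i + 1))
    (hact : ∀ t i, i ∈ act t → ∃ l : ℝ, 0 ≤ l ∧ l ≤ 1 ∧
      μ t i = l * ((min (g t i) V - min (g t (i - 1)) V) / 4) ∧
      (l = 1 ∨ δ ≤ |l * ((min (g t i) V - min (g t (i - 1)) V) / 4)|))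
    (hidle : ∀ t i, i ∉ act t → μ t i = 0)
    (hfair : ∀ i T, ∃ t, T ≤ t ∧ i ∈ act t) (ε : ℝ) (hε : 0 < ε) :
    ∃ T, ∀ t, T ≤ t → ∀ i, |g t i - L / n| ≤ ε := by
  classical
  have hn : (0 : ℝ) < n := by exact_mod_cast Nat.pos_of_ne_zero (NeZero.ne n)
  have hd : 0 < L / n := div_pos hL hn
  have hV0 : 0 < V := by linarith
  set D : ℕ → ZMod n → ℝ := fun t i => (min (g t i) V - min (g t (i - 1)) V) / 4 with hD
  have hμl : ∀ t i, ∃ l : ℝ, 0 ≤ l ∧ l ≤ 1 ∧ μ t i = l * D t i := by
    intro t i
    by_cases h : i ∈ act t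
    · obtain ⟨l, h1, h2, h3, -⟩ := hact t i h
      exact ⟨l, h1, h2, h3⟩
    · exact ⟨0, le_rfl, zero_le_one, by rw [hidle t i h, zero_mul]⟩
  have hμD : ∀ t i, μ t i ^ 2 ≤ μ t i * D t i := by
    intro t i
    obtain ⟨l, h1, h2, h3⟩ := hμl t i
    rw [h3]
    have h4 : 0 ≤ D t i ^ 2 := sq_nonneg _
    nlinarith [mul_nonneg h1 h4, mul_nonneg (mul_nonneg h1 (sub_nonneg.mpr h2)) h4]
  have hμD0 : ∀ t i, 0 ≤ μ t i * D t i := fun t i => (sq_nonneg _).trans (hμD t i)
  set Φ : ℕ → ℝ := fun t => ∑ i, phi V (g t i) with hΦ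
  have hΦstep : ∀ t, Φ (t + 1) + 4 * ∑ i, μ t i * D t i ≤ Φ t := fun t =>
    potential_step V (g t) (g (t + 1)) (μ t) (hstep t) (hμD t)
  have hΦ0 : ∀ t, 0 ≤ Φ t := fun t => sum_nonneg (fun i _ => phi_nonneg hV0.le (hpos t i).le)
  have hΦanti : Antitone Φ := by
    apply antitone_nat_of_succ_le
    intro t
    have h1 := hΦstep t
    have h2 : 0 ≤ ∑ i, μ t i * D t i := sum_nonneg (fun i _ => hμD0 t i)
    linarith
  have hlim : ∃ l, Tendsto Φ atTop (nhds l) :=
    ⟨_, tendsto_atTop_ciInf hΦanti ⟨0, by rintro _ ⟨t, rfl⟩; exact hΦ0 t⟩⟩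
  obtain ⟨l, hl⟩ := hlim
  have hdiff : Tendsto (fun t => Φ t - Φ (t + 1)) atTop (nhds 0) := by
    have h1 := hl.sub (hl.comp (tendsto_add_atTop_nat 1))
    rw [sub_self] at h1
    exact h1
  -- computed displacements of active sensors tend to zero
  have hsmall : ∀ κ : ℝ, 0 < κ → ∃ T, ∀ t, T ≤ t → ∀ i, i ∈ act t → |D t i| < κ := by
    intro κ hκ
    have hκ' : 0 < 4 * min (κ ^ 2) (δ * κ) := by positivity
    have h1 := hdiff.eventually (gt_mem_nhds hκ')
    obtain ⟨T, hT⟩ := eventually_atTop.mp h1
    refine ⟨T, fun t ht i hi => ?_⟩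
    by_contra hcon
    rw [not_lt] at hcon
    have h2 := hT t ht
    have h3 := hΦstep t
    have h4 : μ t i * D t i ≤ ∑ i, μ t i * D t i :=
      single_le_sum (f := fun i => μ t i * D t i) (fun i _ => hμD0 t i) (mem_univ i)
    have h5 : min (κ ^ 2) (δ * κ) ≤ μ t i * D t i := by
      obtain ⟨l, hl0, hl1, hl2, hl3⟩ := hact t i hi
      have hl2' : μ t i = l * D t i := hl2
      rw [hl2']
      have h6 : l * D t i * D t i = l * |D t i| * |D t i| := by
        rw [mul_assoc, mul_assoc, ← abs_mul_abs_self (D t i)]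
      rw [h6]
      rcases hl3 with h7 | h7
      · rw [h7, one_mul]
        refine (min_le_left _ _).trans ?_
        nlinarith
      · refine (min_le_right _ _).trans ?_
        have h8 : |l * D t i| = l * |D t i| := by rw [abs_mul, abs_of_nonneg hl0]
        have h9 : δ ≤ l * |D t i| := by rw [← h8]; exact h7
        have h10 : 0 ≤ l * |D t i| := hδ.le.trans h9
        nlinarith
    linarith
  -- the spread of the capped gaps tends to zero
  have hspread : ∀ η : ℝ, 0 < η → ∃ T, ∀ t, T ≤ t → ∀ i j,
      min (g t i) V - min (g t j) V < η := by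
    intro η hη
    obtain ⟨T, hT⟩ := hsmall (η / n / 4) (by positivity)
    refine ⟨T, fun t₀ ht₀ i₀ j₀ => ?_⟩
    by_contra hcon
    rw [not_lt] at hcon
    obtain ⟨α, β, hαβ, hsep, hj₀, hi₀⟩ :=
      exists_separation (fun i => min (g t₀ i) V) η hη i₀ j₀ hcon
    have hlt : α < β := by
      have : 0 < η / n := div_pos hη hn
      linarith
    have hβV : β ≤ V := hi₀.trans (min_le_right _ _)
    -- the invariant
    have hinv : ∀ s : ℕ, ∀ i, (β ≤ min (g t₀ i) V → β ≤ min (g (t₀ + s) i) V) ∧
        (min (g t₀ i) V ≤ α → min (g (t₀ + s) i) V ≤ α) := by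
      intro s
      induction s with
      | zero => intro i; simp
      | succ s ih =>
        -- sensors at the boundary are not active
        have hb : ∀ i, (β ≤ min (g t₀ i) V ∧ min (g t₀ (i - 1)) V ≤ α) ∨
            (min (g t₀ i) V ≤ α ∧ β ≤ min (g t₀ (i - 1)) V) → μ (t₀ + s) i = 0 := by
          intro i hi
          apply hidle
          intro hi'
          have h1 := hT (t₀ + s) (by omega) i hi'
          have h2 : η / n / 4 ≤ |D (t₀ + s) i| := by
            simp only [hD]
            rw [abs_div, abs_of_pos (show (0 : ℝ) < 4 by norm_num)]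
            apply div_le_div_of_nonneg_right _ (by norm_num : (0 : ℝ) ≤ 4)
            rcases hi with ⟨h3, h4⟩ | ⟨h3, h4⟩
            · have h5 := (ih i).1 h3
              have h6 := (ih (i - 1)).2 h4
              exact le_trans (by linarith) (le_abs_self _)
            · have h5 := (ih i).2 h3
              have h6 := (ih (i - 1)).1 h4
              exact le_trans (by linarith) (neg_le_abs _)
          linarith
        intro i
        have hst := hstep (t₀ + s) i
        obtain ⟨l1, h10, h11, h12⟩ := hμl (t₀ + s) i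
        obtain ⟨l2, h20, h21, h22⟩ := hμl (t₀ + s) (i + 1)
        simp only [hD] at h12 h22
        rw [add_sub_cancel_right] at h22
        constructor
        · intro hi
          have hci := (ih i).1 hi
          -- the loss on each side is at most a quarter of the excess over β
          have hloss1 : μ (t₀ + s) i ≤ (min (g (t₀ + s) i) V - β) / 4 := by
            rcases hsep (i - 1) with h | h
            · rw [hb i (Or.inl ⟨hi, h⟩)]; linarith
            · have h' := (ih (i - 1)).1 h
              rw [h12]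
              nlinarith
          have hloss2 : -(μ (t₀ + s) (i + 1)) ≤ (min (g (t₀ + s) i) V - β) / 4 := by
            rcases hsep (i + 1) with h | h
            · rw [hb (i + 1) (Or.inr ⟨h, by rw [add_sub_cancel_right]; exact hi⟩)]; linarith
            · have h' := (ih (i + 1)).1 h
              rw [h22]
              nlinarith
          have hg1 : min (g (t₀ + s) i) V ≤ g (t₀ + s) i := min_le_left _ _
          apply le_min _ hβV
          rw [← add_assoc, hst]
          linarith
        · intro hi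
          have hci := (ih i).2 hi
          have hgc : g (t₀ + s) i = min (g (t₀ + s) i) V := by
            rcases le_total (g (t₀ + s) i) V with h | h
            · rw [min_eq_left h]
            · rw [min_eq_right h] at hci; linarith
          have hgain1 : -(μ (t₀ + s) i) ≤ (α - min (g (t₀ + s) i) V) / 4 := by
            rcases hsep (i - 1) with h | h
            · have h' := (ih (i - 1)).2 h
              rw [h12]
              nlinarith
            · rw [hb i (Or.inr ⟨hi, h⟩)]; linarith
          have hgain2 : μ (t₀ + s) (i + 1) ≤ (α - min (g (t₀ + s) i) V) / 4 := by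
            rcases hsep (i + 1) with h | h
            · have h' := (ih (i + 1)).2 h
              rw [h22]
              nlinarith
            · rw [hb (i + 1) (Or.inl ⟨h, by rw [add_sub_cancel_right]; exact hi⟩)]; linarith
          refine (min_le_left _ _).trans ?_
          rw [← add_assoc, hst]
          linarith
    obtain ⟨i, hi1, hi2⟩ := exists_boundary (fun i => β ≤ min (g t₀ i) V) i₀ j₀ hi₀
      (by rw [not_le]; exact lt_of_le_of_lt hj₀ hlt)
    have hi3 : min (g t₀ i) V ≤ α := by
      rcases hsep i with h | h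
      · exact h
      · exact absurd h hi2
    obtain ⟨t, ht, hti⟩ := hfair i t₀
    obtain ⟨s, rfl⟩ := Nat.exists_eq_add_of_le ht
    have h1 := hT (t₀ + s) (by omega) i hti
    have h2 := (hinv s i).2 hi3
    have h3 := (hinv s (i - 1)).1 hi1
    have h4 : η / n / 4 ≤ |D (t₀ + s) i| := by
      simp only [hD]
      rw [abs_div, abs_of_pos (show (0 : ℝ) < 4 by norm_num)]
      apply div_le_div_of_nonneg_right _ (by norm_num : (0 : ℝ) ≤ 4)
      exact le_trans (by linarith) (neg_le_abs _)
    linarith
  -- conclusion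
  obtain ⟨T, hT⟩ := hspread (min ε (L / n)) (lt_min hε hd)
  refine ⟨T, fun t ht => ?_⟩
  -- a gap that is at most the average
  have hcard : (univ : Finset (ZMod n)).card = n := by rw [card_univ, ZMod.card]
  have hconst : ∑ _i : ZMod n, L / n = L := by
    rw [sum_const, hcard, nsmul_eq_mul]
    field_simp
  obtain ⟨i₁, -, hi₁⟩ : ∃ i ∈ (univ : Finset (ZMod n)), g t i ≤ L / n := by
    apply exists_le_of_sum_le univ_nonempty
    rw [hsum t, hconst]
  obtain ⟨i₂, -, hi₂⟩ : ∃ i ∈ (univ : Finset (ZMod n)), L / n ≤ g t i := by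
    apply exists_le_of_sum_le univ_nonempty
    rw [hsum t, hconst]
  have hcap : ∀ i, g t i = min (g t i) V := by
    intro i
    rcases le_total (g t i) V with h | h
    · rw [min_eq_left h]
    · exfalso
      have h1 := hT t ht i i₁
      rw [min_eq_right h] at h1
      have h2 : min (g t i₁) V ≤ L / n := (min_le_left _ _).trans hi₁
      have h3 : min ε (L / n) ≤ L / n := min_le_right _ _
      linarith
  intro i
  have h1 := hT t ht i i₁
  have h2 := hT t ht i₂ i
  rw [← hcap, ← hcap] at h1 h2
  have h3 : min ε (L / n) ≤ ε := min_le_left _ _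
  rw [abs_le]
  constructor <;> linarith

end Gaps


/-! ### From positions to gaps -/

section Positions

theorem cw_nonneg {L : ℝ} (hL : 0 < L) (x y : ℝ) : 0 ≤ cw L x y :=
  mul_nonneg hL.le (Int.fract_nonneg _)

theorem cw_spec {L : ℝ} (hL : 0 < L) (x y : ℝ) : ∃ m : ℤ, y = x + cw L x y + m * L := by
  refine ⟨⌊(y - x) / L⌋, ?_⟩
  unfold cw
  have h := Int.fract_add_floor ((y - x) / L)
  have h2 : L * ((y - x) / L) = y - x := by field_simp
  rw [← h] at h2
  linarith

theorem cw_unique {L : ℝ} (hL : 0 < L) {x y g : ℝ} (m : ℤ) (h0 : 0 ≤ g) (h1 : g < L)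
    (h : y = x + g + m * L) : cw L x y = g := by
  unfold cw
  have h2 : (y - x) / L = g / L + m := by rw [h]; field_simp; ring
  rw [h2, Int.fract_add_intCast, Int.fract_eq_self.mpr ⟨div_nonneg h0 hL.le, by
    rw [div_lt_one hL]; exact h1⟩]
  field_simp

variable {n : ℕ} [NeZero n]

theorem partial_sum {L : ℝ} (hL : 0 < L) (p : ZMod n → ℝ) (i : ZMod n) (r : ℕ) :
    ∃ m : ℤ, p (i + r) = p i + ∑ l ∈ range r, cw L (p (i + l)) (p (i + l + 1)) + m * L := by
  induction r with
  | zero => exact ⟨0, by simp⟩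
  | succ r ih =>
    obtain ⟨m, hm⟩ := ih
    obtain ⟨m', hm'⟩ := cw_spec hL (p (i + r)) (p (i + r + 1))
    refine ⟨m + m', ?_⟩
    have e : i + ((r + 1 : ℕ) : ZMod n) = i + r + 1 := by push_cast; ring
    rw [e, sum_range_succ]
    push_cast
    linarith

theorem full_sum (f : ZMod n → ℝ) (i : ZMod n) : ∑ l ∈ range n, f (i + l) = ∑ j, f j := by
  symm
  apply Finset.sum_nbij' (fun j => (j - i).val) (fun l : ℕ => i + (l : ZMod n))
  · intro j _
    rw [mem_range]
    exact ZMod.val_lt _
  · intro l _; exact mem_univ _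
  · intro j _
    simp
  · intro l hl
    rw [mem_range] at hl
    simp only [add_sub_cancel_left]
    exact ZMod.val_natCast_of_lt hl
  · intro j _
    simp

/-- partial sums over fewer than `n` consecutive gaps are below `L` -/
theorem partial_lt {L : ℝ} (g : ZMod n → ℝ) (hpos : ∀ i, 0 < g i)
    (hsum : ∑ i, g i = L) (i : ZMod n) (r : ℕ) (hr : r < n) :
    ∑ l ∈ range r, g (i + l) < L := by
  rw [← hsum, ← full_sum g i]
  apply sum_lt_sum_of_subset (i := r)
  · intro l hl
    rw [mem_range] at hl ⊢
    omega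
  · rw [mem_range]; exact hr
  · rw [mem_range]; omega
  · exact hpos _
  · intro j _ _
    exact (hpos _).le

/-- nothing is closer than the next sensor -/
theorem next_closest {L : ℝ} (hL : 0 < L) (p : ZMod n → ℝ) (hp : InClockwiseOrder L p)
    (i j : ZMod n) (hij : j ≠ i) (x : ℝ) (hx : 0 < x) (m : ℤ) (h : p j = p i + x + m * L) :
    cw L (p i) (p (i + 1)) ≤ x ∧ cw L (p (j - 1)) (p j) ≤ x := by
  set g : ZMod n → ℝ := fun i => cw L (p i) (p (i + 1)) with hg
  have hpos : ∀ i, 0 < g i := hp.1
  have hsum : ∑ i, g i = L := hp.2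
  set r := (j - i).val with hr
  have hrn : r < n := ZMod.val_lt _
  have hr0 : r ≠ 0 := by
    intro h0
    rw [hr, ZMod.val_eq_zero, sub_eq_zero] at h0
    exact hij h0
  have hj : i + (r : ZMod n) = j := by
    rw [hr, ZMod.natCast_zmod_val, add_sub_cancel]
  obtain ⟨m', hm'⟩ := partial_sum hL p i r
  rw [hj] at hm'
  have hS1 : ∑ l ∈ range r, g (i + l) < L := partial_lt g hpos hsum i r hrn
  have hS0 : 0 ≤ ∑ l ∈ range r, g (i + l) := sum_nonneg (fun l _ => (hpos _).le)
  -- the two representations
  have h1 : x = ∑ l ∈ range r, g (i + l) + ((m' - m : ℤ) : ℝ) * L := by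
    have : p i + x + m * L = p i + ∑ l ∈ range r, g (i + l) + m' * L := by rw [← h, hm']
    push_cast
    linarith
  have h2 : (-1 : ℝ) < ((m' - m : ℤ) : ℝ) := by
    by_contra hcon
    rw [not_lt] at hcon
    nlinarith
  have h3 : -1 < m' - m := by exact_mod_cast h2
  have h4 : (0 : ℝ) ≤ ((m' - m : ℤ) : ℝ) := by
    have : 0 ≤ m' - m := by omega
    exact_mod_cast this
  have h5 : ∑ l ∈ range r, g (i + l) ≤ x := by
    rw [h1]
    nlinarith
  have h6 : g i ≤ ∑ l ∈ range r, g (i + l) := by
    have := single_le_sum (f := fun l : ℕ => g (i + l)) (fun l _ => (hpos _).le)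
      (show 0 ∈ range r by rw [mem_range]; omega)
    simpa using this
  have h7 : g (j - 1) ≤ ∑ l ∈ range r, g (i + l) := by
    have := single_le_sum (f := fun l : ℕ => g (i + l)) (fun l _ => (hpos _).le)
      (show r - 1 ∈ range r by rw [mem_range]; omega)
    have h8 : i + ((r - 1 : ℕ) : ZMod n) = j - 1 := by
      rw [← hj, Nat.cast_sub (by omega)]
      push_cast
      ring
    simp only [h8] at this
    exact this
  constructor
  · exact h6.trans h5
  · have h9 : cw L (p (j - 1)) (p j) = g (j - 1) := by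
      simp only [hg, sub_add_cancel]
    rw [h9]
    exact h7.trans h5

theorem one_ne {n : ℕ} (hn : 2 ≤ n) (i : ZMod n) : i + 1 ≠ i ∧ i - 1 ≠ i := by
  have : Fact (1 < n) := ⟨by omega⟩
  constructor
  · intro h
    simp at h
  · intro h
    simp at h

theorem view_cw (hn : 2 ≤ n) {L V : ℝ} (hL : 0 < L) (p : ZMod n → ℝ)
    (hp : InClockwiseOrder L p) (u : ℝ) (hu : 0 < u) (i : ZMod n) :
    sInf (insert (u * V) (view L V p 1 u i)) = u * min (cw L (p i) (p (i + 1))) V := by
  apply IsLeast.csInf_eq
  constructor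
  · rcases le_total (cw L (p i) (p (i + 1))) V with h | h
    · rw [min_eq_left h]
      apply Set.mem_insert_of_mem
      refine ⟨mul_pos hu (hp.1 i), mul_le_mul_of_nonneg_left h hu.le, i + 1, (one_ne hn i).1, ?_⟩
      obtain ⟨m, hm⟩ := cw_spec hL (p i) (p (i + 1))
      refine ⟨m, ?_⟩
      rw [one_mul, mul_div_cancel_left₀ _ hu.ne']
      exact hm
    · rw [min_eq_right h]
      exact Set.mem_insert _ _
  · intro x hx
    rcases hx with rfl | ⟨hx0, -, j, hj, m, hm⟩
    · exact mul_le_mul_of_nonneg_left (min_le_right _ _) hu.le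
    · rw [one_mul] at hm
      have h1 := (next_closest hL p hp i j hj (x / u) (div_pos hx0 hu) m hm).1
      rw [le_div_iff₀ hu] at h1
      have h2 := min_le_left (cw L (p i) (p (i + 1))) V
      nlinarith

theorem view_ccw (hn : 2 ≤ n) {L V : ℝ} (hL : 0 < L) (p : ZMod n → ℝ)
    (hp : InClockwiseOrder L p) (u : ℝ) (hu : 0 < u) (i : ZMod n) :
    sInf (insert (u * V) (view L V p (-1) u i)) = u * min (cw L (p (i - 1)) (p i)) V := by
  apply IsLeast.csInf_eq
  constructor
  · rcases le_total (cw L (p (i - 1)) (p i)) V with h | h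
    · rw [min_eq_left h]
      apply Set.mem_insert_of_mem
      have hpos := hp.1 (i - 1)
      rw [sub_add_cancel] at hpos
      refine ⟨mul_pos hu hpos, mul_le_mul_of_nonneg_left h hu.le, i - 1, (one_ne hn i).2, ?_⟩
      obtain ⟨m, hm⟩ := cw_spec hL (p (i - 1)) (p i)
      refine ⟨-m, ?_⟩
      rw [mul_div_cancel_left₀ _ hu.ne']
      push_cast
      linarith
    · rw [min_eq_right h]
      exact Set.mem_insert _ _
  · intro x hx
    rcases hx with rfl | ⟨hx0, -, j, hj, m, hm⟩
    · exact mul_le_mul_of_nonneg_left (min_le_right _ _) hu.le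
    · have h1 := (next_closest hL p hp j i hj.symm (x / u) (div_pos hx0 hu) (-m) (by
        push_cast
        linarith)).2
      rw [le_div_iff₀ hu] at h1
      have h2 := min_le_left (cw L (p (i - 1)) (p i)) V
      nlinarith

theorem computed_eq (hn : 2 ≤ n) {L V : ℝ} (hL : 0 < L) (p : ZMod n → ℝ)
    (hp : InClockwiseOrder L p) (o u : ℝ) (ho : o = 1 ∨ o = -1) (hu : 0 < u) (i : ZMod n) :
    computed balance L V p o u i =
      (min (cw L (p i) (p (i + 1))) V - min (cw L (p (i - 1)) (p i)) V) / 4 := by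
  unfold computed balance
  rcases ho with rfl | rfl
  · rw [view_cw hn hL p hp u hu i, view_ccw hn hL p hp u hu i]
    field_simp
  · rw [neg_neg, view_cw hn hL p hp u hu i, view_ccw hn hL p hp u hu i]
    field_simp
    ring

/-- one step preserves the order and updates the gaps -/
theorem step_order (hn : 2 ≤ n) {L V : ℝ} (hL : 0 < L) (hV : 0 < V) (p p' : ZMod n → ℝ)
    (hp : InClockwiseOrder L p)
    (hmove : ∀ i, ∃ l : ℝ, 0 ≤ l ∧ l ≤ 1 ∧ p' i - p i =
      l * ((min (cw L (p i) (p (i + 1))) V - min (cw L (p (i - 1)) (p i)) V) / 4)) :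
    InClockwiseOrder L p' ∧ ∀ i, cw L (p' i) (p' (i + 1)) =
      cw L (p i) (p (i + 1)) - (p' i - p i) + (p' (i + 1) - p (i + 1)) := by
  set g : ZMod n → ℝ := fun i => cw L (p i) (p (i + 1)) with hg
  set μ : ZMod n → ℝ := fun i => p' i - p i with hμ
  have hpos : ∀ i, 0 < g i := hp.1
  have hsum : ∑ i, g i = L := hp.2
  have hprev : ∀ i, cw L (p (i - 1)) (p i) = g (i - 1) := by
    intro i
    simp only [hg, sub_add_cancel]
  set g' : ZMod n → ℝ := fun i => g i - μ i + μ (i + 1) with hg'
  have hbound : ∀ i, μ i ≤ g i / 4 ∧ -(g (i - 1) / 4) ≤ μ i := by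
    intro i
    obtain ⟨l, h0, h1, h2⟩ := hmove i
    rw [hprev i] at h2
    have h3 : μ i = l * ((min (g i) V - min (g (i - 1)) V) / 4) := h2
    have h4 : 0 < min (g i) V := lt_min (hpos i) hV
    have h5 : 0 < min (g (i - 1)) V := lt_min (hpos (i - 1)) hV
    have h6 : min (g i) V ≤ g i := min_le_left _ _
    have h7 : min (g (i - 1)) V ≤ g (i - 1) := min_le_left _ _
    rw [h3]
    constructor
    · nlinarith
    · nlinarith
  have hg'pos : ∀ i, 0 < g' i := by
    intro i
    have h1 := (hbound i).1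
    have h2 := (hbound (i + 1)).2
    rw [add_sub_cancel_right] at h2
    have h3 := hpos i
    simp only [hg']
    linarith
  have hg'sum : ∑ i, g' i = L := by
    simp only [hg']
    rw [sum_add_distrib, sum_sub_distrib, sum_shift μ, hsum]
    ring
  have hg'lt : ∀ i, g' i < L := by
    intro i
    have h1 := partial_lt g' hg'pos hg'sum i 1 (by omega)
    simpa using h1
  have hcw : ∀ i, cw L (p' i) (p' (i + 1)) = g' i := by
    intro i
    obtain ⟨m, hm⟩ := cw_spec hL (p i) (p (i + 1))
    apply cw_unique hL m (hg'pos i).le (hg'lt i)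
    simp only [hg', hμ, hg]
    linarith
  refine ⟨⟨fun i => by rw [hcw i]; exact hg'pos i, ?_⟩, hcw⟩
  rw [sum_congr rfl (fun i _ => hcw i), hg'sum]

/-- Without common orientation, approximate covering of the ring is solvable under the SSYNC
scheduler: one algorithm works for all numbers of sensors, ring lengths, visibility ranges
`V ≥ 2 L / n`, orientations, units of length, initial configurations, fair schedules and all
interruptions of moves. -/
theorem result : ∃ A : Algorithm, ∀ (n : ℕ) [NeZero n], 2 ≤ n → ∀ L V δ : ℝ, 0 < L →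
    2 * (L / n) ≤ V → 0 < δ → ∀ o u : ZMod n → ℝ, (∀ i, o i = 1 ∨ o i = -1) → (∀ i, 0 < u i) →
      ∀ (act : ℕ → Set (ZMod n)) (p : ℕ → ZMod n → ℝ), InClockwiseOrder L (p 0) →
        IsExecution A L V δ o u act p →
          (∀ t, InClockwiseOrder L (p t)) ∧
          ∀ ε : ℝ, 0 < ε → ∃ T, ∀ t, T ≤ t → ∀ i,
            L / n - ε ≤ cw L (p t i) (p t (i + 1)) ∧ cw L (p t i) (p t (i + 1)) ≤ L / n + ε := by
  refine ⟨balance, ?_⟩
  intro n _ hn L V δ hL hV hδ o u ho hu act p hp0 hexec
  have hnR : (0 : ℝ) < n := by exact_mod_cast Nat.pos_of_ne_zero (NeZero.ne n)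
  have hV0 : 0 < V := by
    have : 0 < L / n := div_pos hL hnR
    linarith
  have hmoves : ∀ t, InClockwiseOrder L (p t) → ∀ i, ∃ l : ℝ, 0 ≤ l ∧ l ≤ 1 ∧
      p (t + 1) i - p t i = l * ((min (cw L (p t i) (p t (i + 1))) V -
        min (cw L (p t (i - 1)) (p t i)) V) / 4) ∧
      (i ∈ act t → (l = 1 ∨ δ ≤ |l * ((min (cw L (p t i) (p t (i + 1))) V -
        min (cw L (p t (i - 1)) (p t i)) V) / 4)|)) := by
    intro t ht i
    by_cases h : i ∈ act t
    · obtain ⟨l, h0, h1, h2, h3⟩ := hexec.active t i h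
      rw [computed_eq hn hL (p t) ht (o i) (u i) (ho i) (hu i) i] at h2 h3
      exact ⟨l, h0, h1, by rw [h2]; ring, fun _ => h3⟩
    · refine ⟨0, le_rfl, zero_le_one, by rw [hexec.idle t i h]; ring, fun h' => absurd h' h⟩
  have horder : ∀ t, InClockwiseOrder L (p t) := by
    intro t
    induction t with
    | zero => exact hp0
    | succ t ih =>
      refine (step_order hn hL hV0 (p t) (p (t + 1)) ih ?_).1
      intro i
      obtain ⟨l, h0, h1, h2, -⟩ := hmoves t ih i
      exact ⟨l, h0, h1, h2⟩
  refine ⟨horder, fun ε hε => ?_⟩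
  set g : ℕ → ZMod n → ℝ := fun t i => cw L (p t i) (p t (i + 1)) with hg
  have hprev : ∀ t i, cw L (p t (i - 1)) (p t i) = g t (i - 1) := by
    intro t i
    simp only [hg, sub_add_cancel]
  obtain ⟨T, hT⟩ := gaps_converge L V δ hL hV hδ g (fun t i => p (t + 1) i - p t i) act
    (fun t i => (horder t).1 i) (fun t => (horder t).2)
    (fun t i => by
      refine (step_order hn hL hV0 (p t) (p (t + 1)) (horder t) ?_).2 i
      intro i
      obtain ⟨l, h0, h1, h2, -⟩ := hmoves t (horder t) i
      exact ⟨l, h0, h1, h2⟩)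
    (fun t i hi => by
      obtain ⟨l, h0, h1, h2, h3⟩ := hmoves t (horder t) i
      rw [hprev t i] at h2 h3
      exact ⟨l, h0, h1, h2, h3 hi⟩)
    (fun t i hi => by
      show p (t + 1) i - p t i = 0
      rw [hexec.idle t i hi, sub_self])
    hexec.fair ε hε
  refine ⟨T, fun t ht i => ?_⟩
  have h := hT t ht i
  rw [abs_le] at h
  constructor <;> linarith [h.1, h.2]

end Positions

end Pool.Agent.Results.MP_5c423c_lc.RingCovering
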